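import Mathlib
import Pool.Agent.Helper278.DefsG
import Pool.Agent.Helper278.CEStmt
import Pool.Agent.Helper436.SM.Stmt
import Pool.Agent.Helper436.SN.StmtG
import Pool.Agent.Helper436.SN.Final2
import Pool.Agent.Helper133.F2.ThmF

set_option autoImplicit false

namespace Pool.Agent.Results.MP_5185df_an.SquareGroup

open Pool.Agent.Helper278 Pool.Agent.Helper436.SM Pool.Agent.Helper436.SN

universe w

/-- There is a countable icc group `G` that is not inner amenable such that `L(G)` is not
elementarily equivalent to `L(F_2)`. -/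
theorem result : ∃ (G : Type) (_ : Group G), Countable G ∧ IsICC G ∧ ¬ InnerAmenable G ∧
    ¬ ElemEquiv.{w} (trL G) (trL (FreeGroup (Fin 2))) :=
  final1.{w} (fun p hp u x hu hx h1 h2 h3 h4 =>
    Pool.Agent.Helper133.F2.thmF _ p hp u x hu hx h1 h2 h3 h4)

end Pool.Agent.Results.MP_5185df_an.SquareGroup
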